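import Mathlib
import Pool.Agent.Q207.Ent3
import Pool.Agent.Results.MP_35f06d_lc.Unconditional

set_option autoImplicit false

/-!
# cov(meager) = continuum is not needed to separate n-entangledness

If the continuum is a limit cardinal, then for every `n > 1` there is a set of reals that is
`(𝔠, n)`-entangled but not `(𝔠, n + 1)`-entangled. This needs no other hypothesis; in particular it
applies in extensions in which `cov(meager) = ℵ₁ < 𝔠 = ℵ_{ω₁}`, which exist over every ground model.

Idea. List the closed sets `C_α` of `n`-tuples, and attach to each of them countably many functions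
of finitely many variables such that, whenever `C_α` has no two points whose entries are compared
in a prescribed strict way, each point of `C_α` has an entry computed by one of the functions from
entries that come later in a prescribed order. Choose blocks `c_ξ` of `n` reals that are independent
over the closure under the functions attached to the first `ξ` closed sets; that mutually
independent blocks exist over a set of size less than the continuum is where the continuum
being a limit cardinal is used (`n` times). The set consists of the entries of the blocks and of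
minus the sums of the blocks.
-/

namespace Pool.Agent.Results.MP_360872_lc.LimitContinuum

open Cardinal Ordinal

/-- two `n`-tuples are disjoint: they share no entry -/
def Disj {n : ℕ} (a b : Fin n → ℝ) : Prop := ∀ i j, a i ≠ b j

/-- the type of the pair `(a, b)` of disjoint `n`-tuples is `t`: `t i = 0` iff `a i < b i` -/
def HasType {n : ℕ} (t : Fin n → Fin 2) (a b : Fin n → ℝ) : Prop := ∀ i, t i = 0 ↔ a i < b i

/-- `E` is `(κ, n)`-entangled: every family `F` of `κ` many pairwise disjoint one-to-one `n`-tuples
of elements of `E` contains, for every type `t`, two members (distinct, hence disjoint) of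
type `t`. -/
def IsEntangled (κ : Cardinal.{0}) (n : ℕ) (E : Set ℝ) : Prop :=
  ∀ F : Set (Fin n → ℝ), #F = κ → (∀ a ∈ F, Function.Injective a ∧ ∀ i, a i ∈ E) →
    (∀ a ∈ F, ∀ b ∈ F, a ≠ b → Disj a b) →
    ∀ t : Fin n → Fin 2, ∃ a ∈ F, ∃ b ∈ F, a ≠ b ∧ HasType t a b

/-- the statement (∗) of the problem -/
def Star : Prop := ∀ n : ℕ, 1 < n → ∃ E : Set ℝ, IsEntangled 𝔠 n E ∧ ¬ IsEntangled 𝔠 (n + 1) E

open Pool.Agent.Helper669.Forcing Pool.Agent.Results.MP_35f06d_lc.Unconditional in
/-- (1) If the continuum is a limit cardinal, then (∗) holds. (2) There is a forcing notion all of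
whose conditions force that the meagre ideal has covering number `ℵ₁` and that the continuum
is `κ`, where `κ` is forced to be the cardinal `ℵ_{ω₁}` of the extension. -/
theorem result :
    ((∀ μ < (𝔠 : Cardinal.{0}), Order.succ μ < 𝔠) → Star) ∧
    ∃ (P : Type) (_ : Preorder P) (κ : Cardinal.{0}), Nonempty P ∧ ForcesAlephOmegaOne P κ ∧
      ∀ p : P, p ∈ CovIs P (ℵ₁ : Cardinal.{0}) ∧ p ∈ ContinuumIs P κ := by
  refine ⟨fun h n hn => Q207.Ent.main h n hn, ?_⟩
  obtain ⟨P, hP, κ, h1, h2, h3⟩ := Pool.Agent.Results.MP_35f06d_lc.Unconditional.result
  exact ⟨P, hP, κ, h1, h2, fun p => ⟨(h3 p).1, (h3 p).2.1⟩⟩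

end Pool.Agent.Results.MP_360872_lc.LimitContinuum
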